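import Pool.Agent.Helper19.SQ.GoalsQ2

/-!
# Packet SQ-YE (MP_bb32d1_al): the operator `Y` intertwines `oE_k` and `delta(E_k)`
-/

set_option autoImplicit false

namespace Pool.Agent.Helper77.SQ

open Pool.Agent.Helper19.SQ

variable {B : Type} [Ring B] [Algebra ℂ B]

lemma sum_pick (N k : ℕ) (b : Fin (N + 1)) (f : Fin (N + 1) → B) (g : ℕ → B)
    (hfg : ∀ j : Fin (N + 1), f j = g j) (w : B) :
    ∑ j : Fin (N + 1), f j * (if (j : ℕ) = k ∧ (b : ℕ) = k + 1 then w else 0) =
      if (b : ℕ) = k + 1 then g k * w else 0 := by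
  by_cases hb : (b : ℕ) = k + 1
  · rw [if_pos hb]
    have hk : k < N + 1 := by
      have := b.2
      omega
    rw [Finset.sum_eq_single (⟨k, hk⟩ : Fin (N + 1))]
    · rw [if_pos ⟨rfl, hb⟩, hfg]
    · intro j _ hj
      have : ¬ ((j : ℕ) = k ∧ (b : ℕ) = k + 1) := fun h => hj (Fin.ext h.1)
      rw [if_neg this, mul_zero]
    · intro h
      exact absurd (Finset.mem_univ _) h
  · rw [if_neg hb]
    refine Finset.sum_eq_zero fun j _ => ?_
    have : ¬ ((j : ℕ) = k ∧ (b : ℕ) = k + 1) := fun h => hb h.2
    rw [if_neg this, mul_zero]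

lemma sum_pick' (N k : ℕ) (a : Fin (N + 1)) (f : Fin (N + 1) → B) (g : ℕ → B)
    (hfg : ∀ j : Fin (N + 1), f j = g j) :
    ∑ c : Fin (N + 1), (if (a : ℕ) = k ∧ (c : ℕ) = k + 1 then (1 : B) else 0) * f c =
      if (a : ℕ) = k ∧ k + 1 ≤ N then g (k + 1) else 0 := by
  by_cases hk : (a : ℕ) = k ∧ k + 1 ≤ N
  · rw [if_pos hk]
    rw [Finset.sum_eq_single (⟨k + 1, by omega⟩ : Fin (N + 1))]
    · rw [if_pos ⟨hk.1, rfl⟩, one_mul, hfg]
    · intro c _ hc
      have : ¬ ((a : ℕ) = k ∧ (c : ℕ) = k + 1) := fun h => hc (Fin.ext h.2)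
      rw [if_neg this, zero_mul]
    · intro h
      exact absurd (Finset.mem_univ _) h
  · rw [if_neg hk]
    refine Finset.sum_eq_zero fun c _ => ?_
    have : ¬ ((a : ℕ) = k ∧ (c : ℕ) = k + 1) := fun h => hk ⟨h.1, by have := c.2; omega⟩
    rw [if_neg this, zero_mul]

lemma Yent_self (q : ℂ) (F K : ℕ → B) (a : ℕ) : Yent q F K a a = K a := if_pos rfl

lemma Yent_lt (q : ℂ) (F K : ℕ → B) (a b : ℕ) (h : a < b) :
    Yent q F K a b = (q - q⁻¹) • (K a * rvo q F a b) := by
  rw [Yent, if_neg h.ne, if_pos h]

lemma Yent_gt (q : ℂ) (F K : ℕ → B) (a b : ℕ) (h : b < a) : Yent q F K a b = 0 := by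
  rw [Yent, if_neg h.ne', if_neg (by omega)]

section main

variable {N l : ℕ} {q : ℂ} {E F K : ℕ → B}

lemma q_ne (hP : Par N l q) : q ≠ 0 := hP.prim.ne_zero (by have := hP.h3; omega)

lemma qq_ne (hP : Par N l q) : q - q⁻¹ ≠ 0 := by
  intro h
  have hq := q_ne hP
  have h2 : q ^ 2 = 1 := by
    have : q = q⁻¹ := sub_eq_zero.mp h
    calc q ^ 2 = q * q := by ring
      _ = q * q⁻¹ := by rw [← this]
      _ = 1 := mul_inv_cancel₀ hq
  have h3 := hP.prim.dvd_of_pow_eq_one 2 h2
  have := Nat.le_of_dvd (by norm_num) h3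
  have := hP.h3
  omega

/-- the entries of (Y1) -/
lemma y1 (hCM : S_CM2) (hKG : S_KG) (hKI : S_KI) (hP : Par N l q) (hR : GlRel N l q E F K)
    (k : ℕ) (hk : k < N) (a b : ℕ) (hb : b ≤ N) :
    Yent q F K a b * E k + (if b = k + 1 then Yent q F K a k * (K k * ki l K (k + 1)) else 0) =
      q ^ pr a k • (E k * Yent q F K a b) + (if a = k then Yent q F K (k + 1) b else 0) := by
  have hq := q_ne hP
  have hqq := qq_ne hP
  obtain ⟨hKi, hKi', hKc, hKc2, -, -⟩ := hKI B l K (by have := hP.h3; omega) hR.K_comm hR.K_pow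
  rcases lt_trichotomy b a with hba | hab | hab
  · rw [Yent_gt q F K a b hba]
    have e1 : (if b = k + 1 then Yent q F K a k * (K k * ki l K (k + 1)) else 0) = 0 := by
      by_cases h : b = k + 1
      · rw [if_pos h, Yent_gt q F K a k (by omega), zero_mul]
      · rw [if_neg h]
    have e2 : (if a = k then Yent q F K (k + 1) b else 0) = 0 := by
      by_cases h : a = k
      · rw [if_pos h, Yent_gt q F K (k + 1) b (by omega)]
      · rw [if_neg h]
    rw [e1, e2]
    simp
  · subst hab
    rw [Yent_self]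
    have e1 : (if b = k + 1 then Yent q F K b k * (K k * ki l K (k + 1)) else 0) = 0 := by
      by_cases h : b = k + 1
      · rw [if_pos h, Yent_gt q F K b k (by omega), zero_mul]
      · rw [if_neg h]
    have e2 : (if b = k then Yent q F K (k + 1) b else 0) = 0 := by
      by_cases h : b = k
      · rw [if_pos h, Yent_gt q F K (k + 1) b (by omega)]
      · rw [if_neg h]
    rw [e1, e2, add_zero, add_zero, hR.KE]
  · rw [Yent_lt q F K a b hab]
    have hKE : q ^ pr a k • (E k * K a) = K a * E k := (hR.KE a k).symm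
    have hred : q ^ pr a k • (E k * ((q - q⁻¹) • (K a * rvo q F a b))) =
        (q - q⁻¹) • (K a * (E k * rvo q F a b)) := by
      rw [mul_smul_comm, smul_comm, ← mul_assoc, ← smul_mul_assoc, hKE, mul_assoc]
    rw [hred]
    obtain ⟨-, c1, c2, c3⟩ := hCM B N l q E F K hP hR
    by_cases h1 : a = k
    · subst h1
      by_cases h2 : b = a + 1
      · subst h2
        rw [if_pos rfl, if_pos rfl, Yent_self, Yent_self]
        have hF : rvo q F a (a + 1) = F a := by
          rw [rvo, show a + 1 - a - 1 = 0 by omega]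
          rfl
        rw [hF]
        have hEF := hR.EF a hk
        have hEF' : E a * F a = F a * E a + (q - q⁻¹)⁻¹ • (K a * ki l K (a + 1) -
            ki l K a * K (a + 1)) := by
          rw [show K a * ki l K (a + 1) - ki l K a * K (a + 1) =
            K a * K (a + 1) ^ (l - 1) - K a ^ (l - 1) * K (a + 1) from rfl, ← hEF]
          abel
        rw [hEF', mul_add, smul_add, mul_smul_comm, smul_smul, mul_inv_cancel₀ hqq, one_smul,
          mul_sub, ← mul_assoc (K a) (ki l K a), hKi, one_mul, smul_mul_assoc, mul_assoc (K a) (F a)]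
        abel
      · rw [if_neg h2, if_pos rfl, add_zero, Yent_lt q F K (a + 1) b (by omega)]
        have hc := c2 a b (by omega) hb
        have hc' : E a * rvo q F a b = rvo q F a b * E a -
            q⁻¹ • (rvo q F (a + 1) b * kk l K (a + 1) a) := by
          rw [sub_eq_add_neg, ← hc]
          abel
        have hK1 := ((hKG B N l q E F K (by have := hP.h3; omega) hq hR a (a + 1) b (by omega)).2.2).1
        have hK2 := ((hKG B N l q E F K (by have := hP.h3; omega) hq hR (a + 1) (a + 1) b
          (by omega)).2.2).1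
        have hw1 : -ew a (a + 1) b = 0 := by
          rw [ew, if_neg (by omega), if_neg (by omega)]
          simp
        have hw2 : -ew (a + 1) (a + 1) b = -1 := by
          rw [ew, if_pos rfl, if_neg (by omega)]
          simp
        rw [hw1, zpow_zero, one_smul] at hK1
        rw [hw2, zpow_neg_one] at hK2
        have hfin : K a * (rvo q F (a + 1) b * kk l K (a + 1) a) =
            rvo q F (a + 1) b * K (a + 1) := by
          rw [← mul_assoc, hK1, mul_assoc, kk]
          congr 1
          rw [← mul_assoc, hR.K_comm a (a + 1), mul_assoc, hKi, mul_one]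
        rw [hc', mul_sub, smul_sub, mul_smul_comm, hfin, hK2, smul_mul_assoc, mul_assoc]
        abel
    · rw [if_neg h1, add_zero]
      by_cases h2 : b = k + 1
      · subst h2
        rw [if_pos rfl]
        have hak : a < k := by omega
        have hc := c3 a k hak hb
        have hc' : E k * rvo q F a (k + 1) = rvo q F a (k + 1) * E k +
            rvo q F a k * kk l K k (k + 1) := by
          rw [← hc]
          abel
        rw [hc', Yent_lt q F K a k hak, mul_add, smul_add, smul_mul_assoc, smul_mul_assoc, mul_assoc,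
          mul_assoc, kk]
      · rw [if_neg h2, add_zero, c1 a b k hab hb (fun h => h1 h.symm) (fun h => h2 h.symm),
          smul_mul_assoc, mul_assoc]

end main

theorem sYE (_hRO : S_RO) (hKG : S_KG) (hKI : S_KI) (hCM : S_CM2) : S_YE := by
  intro B _ _ N l q E F K hP hR k
  ext a b
  rw [Matrix.mul_apply, Matrix.mul_apply]
  have hL : ∑ j, Ymat N q F K a j * oE N l E K k j b = Yent q F K a b * E k +
      (if (b : ℕ) = k + 1 then Yent q F K a k * (K k * ki l K (k + 1)) else 0) := by
    have e : ∀ j, Ymat N q F K a j * oE N l E K k j b =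
        Yent q F K a j * (if j = b then E k else 0) +
        Yent q F K a j * (if (j : ℕ) = k ∧ (b : ℕ) = k + 1 then K k * ki l K (k + 1) else 0) := by
      intro j
      rw [← mul_add]
      rfl
    rw [Finset.sum_congr rfl fun j _ => e j, Finset.sum_add_distrib,
      sum_pick N k b (fun j => Yent q F K a j) (fun n => Yent q F K a n) (fun _ => rfl)]
    congr 1
    simp
  have hRr : ∑ j, dE N q E k a j * Ymat N q F K j b = q ^ pr a k • (E k * Yent q F K a b) +
      (if (a : ℕ) = k ∧ k + 1 ≤ N then Yent q F K (k + 1) b else 0) := by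
    have e : ∀ j, dE N q E k a j * Ymat N q F K j b =
        (if a = j then q ^ pr a k • E k else 0) * Yent q F K j b +
        (if (a : ℕ) = k ∧ (j : ℕ) = k + 1 then (1 : B) else 0) * Yent q F K j b := by
      intro j
      rw [← add_mul]
      rfl
    rw [Finset.sum_congr rfl fun j _ => e j, Finset.sum_add_distrib,
      sum_pick' N k a (fun j => Yent q F K j b) (fun n => Yent q F K n b) (fun _ => rfl)]
    congr 1
    simp
  rw [hL, hRr]
  by_cases hk : k < N
  · have h := y1 hCM hKG hKI hP hR k hk a b (by have := b.2; omega)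
    rw [h]
    congr 1
    by_cases ha : (a : ℕ) = k
    · rw [if_pos ha, if_pos ⟨ha, hk⟩]
    · rw [if_neg ha, if_neg (fun h => ha h.1)]
  · have hE : E k = 0 := hR.E_out k (by omega)
    have hb : ¬ ((b : ℕ) = k + 1) := by
      have := b.2
      omega
    rw [hE, mul_zero, zero_mul, smul_zero, if_neg hb, if_neg (fun h => hk h.2)]

theorem sYK (_hRO : S_RO) (hKG : S_KG) (_hKI : S_KI) (_hCM : S_CM2) : S_YK := by
  intro B _ _ N l q E F K hP hR k
  have hq := q_ne hP
  ext a b
  rw [Matrix.mul_apply, Matrix.mul_apply]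
  have hL : ∑ j, Ymat N q F K a j * dK N q K k j b = Yent q F K a b *
      ((if (b : ℕ) = k then q else 1) • K k) := by
    rw [Finset.sum_eq_single b]
    · change Yent q F K a b * (if b = b then (if (b : ℕ) = k then q else 1) • K k else 0) = _
      rw [if_pos rfl]
    · intro j _ hj
      change Yent q F K a j * (if j = b then (if (j : ℕ) = k then q else 1) • K k else 0) = _
      rw [if_neg hj, mul_zero]
    · intro h
      exact absurd (Finset.mem_univ _) h
  have hRr : ∑ j, dK N q K k a j * Ymat N q F K j b =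
      ((if (a : ℕ) = k then q else 1) • K k) * Yent q F K a b := by
    rw [Finset.sum_eq_single a]
    · change (if a = a then (if (a : ℕ) = k then q else 1) • K k else 0) * Yent q F K a b = _
      rw [if_pos rfl]
    · intro j _ hj
      change (if a = j then (if (a : ℕ) = k then q else 1) • K k else 0) * Yent q F K j b = _
      rw [if_neg (Ne.symm hj), zero_mul]
    · intro h
      exact absurd (Finset.mem_univ _) h
  rw [hL, hRr]
  rcases lt_trichotomy (b : ℕ) (a : ℕ) with hba | hab | hab
  · rw [Yent_gt q F K a b hba, zero_mul, mul_zero]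
  · rw [hab, Yent_self, smul_mul_assoc, mul_smul_comm, hR.K_comm]
  · rw [Yent_lt q F K a b hab]
    have hw := ((hKG B N l q E F K (by have := hP.h3; omega) hq hR k a b hab).2.2).1
    have e : ((if (a : ℕ) = k then q else 1) : ℂ) * q ^ (-ew k a b) =
        (if (b : ℕ) = k then q else 1) := by
      by_cases h1 : (a : ℕ) = k
      · have h2 : ¬ ((b : ℕ) = k) := by omega
        rw [if_pos h1, if_neg h2, ew, if_pos h1.symm, if_neg (fun h => h2 h.symm)]
        simp [hq]
      · by_cases h2 : (b : ℕ) = k
        · rw [if_neg h1, if_pos h2, ew, if_neg (fun h => h1 h.symm), if_pos h2.symm]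
          simp
        · rw [if_neg h1, if_neg h2, ew, if_neg (fun h => h1 h.symm), if_neg (fun h => h2 h.symm)]
          simp
    rw [smul_mul_assoc, mul_smul_comm, smul_mul_assoc, mul_smul_comm, ← mul_assoc (K k) (K a),
      hR.K_comm k a, mul_assoc (K a) (K k), hw, mul_smul_comm, smul_smul, smul_smul, smul_smul,
      mul_assoc (K a)]
    rw [← e]
    congr 1
    ring

end Pool.Agent.Helper77.SQ
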