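import Pool.Agent.Helper41.SQ.GoalsN

/-!
# Packet SQN-BLK (MP_bb32d1_al): the blocks of both sides
-/

set_option autoImplicit false

namespace Pool.Agent.Helper77.SQN

open Matrix Pool.Agent.Helper19.SQ Pool.Agent.Helper41.SQ

theorem zmod_ne {l : ℕ} (hl : 2 ≤ l) (c : ZMod l) : c ≠ c + 1 := by
  intro h
  have h1 : (1 : ZMod l) = 0 := by
    have h2 : c + 0 = c + 1 := by rw [add_zero]; exact h
    exact (add_left_cancel h2).symm
  have : Fact (1 < l) := ⟨by omega⟩
  exact one_ne_zero h1

theorem al_self {l : ℕ} (hl : 2 ≤ l) (c : ZMod l) : al c c = 1 := by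
  unfold al
  rw [if_pos rfl, if_neg (zmod_ne hl c), sub_zero]

theorem al_succ {l : ℕ} (hl : 2 ≤ l) (c : ZMod l) : al c (c + 1) = -1 := by
  unfold al
  rw [if_neg (zmod_ne hl c).symm, if_pos rfl, zero_sub]

theorem al_le {l : ℕ} {c c' : ZMod l} (h : c' ≠ c) : al c' c ≤ 0 := by
  unfold al
  rw [if_neg (Ne.symm h)]
  split_ifs <;> norm_num

theorem al_ge {l : ℕ} {c c' : ZMod l} (h : c' ≠ c) : 0 ≤ al c' (c + 1) := by
  unfold al
  rw [if_neg (fun h1 : c + 1 = c' + 1 => h (add_right_cancel h1).symm)]
  split_ifs <;> norm_num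

theorem n_blk : S_BLK := by
  intro A _ _ ι _ _ l hl C S c
  refine ⟨fun hD => ?_, fun hD => ?_⟩
  · refine ⟨C.e_cen, C.e_idem, C.e_orth, C.e_types, C.e_sum, ?_, ?_⟩
    · change al c c = 1
      exact al_self hl c
    · intro m m' h
      rw [hD] at h
      obtain ⟨c', rfl⟩ := C.BL2 m m' h
      by_cases hc : c' = c
      · right
        rw [hc]
      · left
        change (m + al c') c < m c + 1
        rw [Pi.add_apply]
        have := al_le hc
        omega
  · refine ⟨C.e_cen, C.e_idem, C.e_orth, C.e_types, C.e_sum, ?_, ?_⟩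
    · change (-al c) (c + 1) = 1
      rw [Pi.neg_apply, al_succ hl c, neg_neg]
    · intro m m' h
      rw [hD] at h
      have hex : ∃ c', m = m' + al c' := by
        by_contra hcon
        have h0 : C.ε (C.e m) * Matrix.diagonal (fun _ => C.e m') = 0 := by
          by_contra h1
          exact hcon (C.BL2 m' m h1)
        apply h
        ext r p
        rw [Matrix.mul_diagonal, Matrix.zero_apply]
        have h2 : ∀ i, C.ε (C.e m) p i * C.e m' = 0 := by
          intro i
          have h3 := congrFun (congrFun h0 p) i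
          rwa [Matrix.mul_diagonal, Matrix.zero_apply] at h3
        have h4 : C.δ (C.e m') r p * C.e m =
            ∑ j, C.δ (C.e m') r j * ∑ i, C.δ (C.ε (C.e m) p i) j i := by
          rw [Finset.sum_eq_single p]
          · rw [C.cup0, if_pos rfl]
          · intro j _ hj
            rw [C.cup0, if_neg (Ne.symm hj), mul_zero]
          · intro hp
            exact absurd (Finset.mem_univ p) hp
        rw [h4]
        have h5 : ∀ j, C.δ (C.e m') r j * ∑ i, C.δ (C.ε (C.e m) p i) j i =
            ∑ i, C.δ (C.e m') r j * C.δ (C.ε (C.e m) p i) j i := fun j => Finset.mul_sum _ _ _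
        rw [Finset.sum_congr rfl fun j _ => h5 j, Finset.sum_comm]
        refine Finset.sum_eq_zero fun i _ => ?_
        rw [← Matrix.mul_apply, ← map_mul, C.e_cen, h2, map_zero, Matrix.zero_apply]
      obtain ⟨c', hc'⟩ := hex
      by_cases hc : c' = c
      · right
        rw [hc', hc]
        abel
      · left
        change m' (c + 1) < m (c + 1) + 1
        rw [hc', Pi.add_apply]
        have := al_ge hc
        omega

end Pool.Agent.Helper77.SQN
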