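import Pool.Agent.Helper4.SQ.GoalsR

/-!
# Packet SQR-PSER (MP_bb32d1_al): power series in a commutative ring
-/

set_option autoImplicit false

namespace Pool.Agent.Helper77.SQ

open Pool.Agent.Helper19.SQ Pool.Agent.Helper41.SQ Pool.Agent.Helper4.SQ

noncomputable section

variable {R : Type} [CommRing R]

/-- multiplication by `1 - a z` -/
theorem one_sub_mul (a : R) (f g : ℕ → R) (h0 : f 0 = g 0)
    (hs : ∀ n, f (n + 1) - a * f n = g (n + 1)) :
    (1 - PowerSeries.C a * PowerSeries.X) * PowerSeries.mk f = PowerSeries.mk g := by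
  ext n
  rw [sub_mul, one_mul, mul_assoc, map_sub, PowerSeries.coeff_C_mul, PowerSeries.coeff_mk,
    PowerSeries.coeff_mk]
  cases n with
  | zero => simp [h0]
  | succ n => rw [PowerSeries.coeff_succ_X_mul, PowerSeries.coeff_mk, hs n]

/-- geometric series -/
theorem geom (a : R) :
    (1 - PowerSeries.C a * PowerSeries.X) * PowerSeries.mk (fun k => a ^ k) = 1 := by
  rw [one_sub_mul a _ (fun k => if k = 0 then 1 else 0)]
  · ext n
    rw [PowerSeries.coeff_mk, PowerSeries.coeff_one]
  · simp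
  · intro n
    rw [pow_succ, if_neg (Nat.succ_ne_zero n)]
    ring

/-- `∑ k a^k z^k` -/
theorem lin (a : R) : (1 - PowerSeries.C a * PowerSeries.X) ^ 2 *
    PowerSeries.mk (fun k => (k : R) * a ^ k) = PowerSeries.C a * PowerSeries.X := by
  rw [pow_two, mul_assoc, one_sub_mul a _ (fun k => if k = 0 then 0 else a ^ k),
    one_sub_mul a _ (fun k => if k = 1 then a else 0)]
  · ext n
    rw [PowerSeries.coeff_mk, PowerSeries.coeff_C_mul, PowerSeries.coeff_X]
    split_ifs <;> simp
  · simp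
  · intro n
    cases n with
    | zero => simp
    | succ n =>
      rw [if_neg (Nat.succ_ne_zero _), if_neg (Nat.succ_ne_zero _), if_neg (by omega)]
      ring
  · simp
  · intro n
    rw [if_neg (Nat.succ_ne_zero _)]
    push_cast
    ring

/-- `∑ k^2 a^k z^k` -/
theorem quad (a : R) : (1 - PowerSeries.C a * PowerSeries.X) ^ 3 *
    PowerSeries.mk (fun k => (k : R) * ((k : R) * a ^ k)) =
      PowerSeries.C a * PowerSeries.X * (1 + PowerSeries.C a * PowerSeries.X) := by
  have h1 : (1 - PowerSeries.C a * PowerSeries.X) *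
      PowerSeries.mk (fun k => (k : R) * ((k : R) * a ^ k)) =
      2 * PowerSeries.mk (fun k => (k : R) * a ^ k) -
        (PowerSeries.mk (fun k => a ^ k) - 1) := by
    rw [one_sub_mul a _ (fun k => if k = 0 then 0 else (2 * (k : R) - 1) * a ^ k)]
    · ext n
      have h2 : (2 : PowerSeries R) = PowerSeries.C (2 : R) := (map_ofNat PowerSeries.C 2).symm
      rw [h2, map_sub, map_sub, PowerSeries.coeff_C_mul, PowerSeries.coeff_mk, PowerSeries.coeff_mk,
        PowerSeries.coeff_mk, PowerSeries.coeff_one]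
      split_ifs with h
      · subst h; simp
      · ring
    · simp
    · intro n
      rw [if_neg (Nat.succ_ne_zero _)]
      push_cast
      ring
  have h2 := lin a
  have h3 := geom a
  calc (1 - PowerSeries.C a * PowerSeries.X) ^ 3 *
        PowerSeries.mk (fun k => (k : R) * ((k : R) * a ^ k))
      = (1 - PowerSeries.C a * PowerSeries.X) ^ 2 * ((1 - PowerSeries.C a * PowerSeries.X) *
        PowerSeries.mk (fun k => (k : R) * ((k : R) * a ^ k))) := by ring
    _ = 2 * ((1 - PowerSeries.C a * PowerSeries.X) ^ 2 *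
          PowerSeries.mk (fun k => (k : R) * a ^ k)) -
        (1 - PowerSeries.C a * PowerSeries.X) * ((1 - PowerSeries.C a * PowerSeries.X) *
          PowerSeries.mk (fun k => a ^ k)) + (1 - PowerSeries.C a * PowerSeries.X) ^ 2 := by
        rw [h1]; ring
    _ = PowerSeries.C a * PowerSeries.X * (1 + PowerSeries.C a * PowerSeries.X) := by
        rw [h2, h3]; ring

theorem unit_one_sub (a : R) : IsUnit (1 - PowerSeries.C a * PowerSeries.X : PowerSeries R) := by
  rw [PowerSeries.isUnit_iff_constantCoeff]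
  simp

/-- the series of `(q^k - q^(-k))^2 X^k` -/
theorem rho_eq (X Q Qi : R) (hQ : Q * Qi = 1) :
    (1 - PowerSeries.C ((Q - Qi) ^ 2) * PowerSeries.mk (fun k => (k : R) * X ^ k)) *
      PowerSeries.mk (fun k => (Q ^ k - Qi ^ k) ^ 2 * X ^ k) =
      PowerSeries.C ((Q - Qi) ^ 2) * PowerSeries.mk (fun k => (k : R) * ((k : R) * X ^ k)) := by
  have hu := unit_one_sub X
  have e1 : PowerSeries.mk (fun k => (Q ^ k - Qi ^ k) ^ 2 * X ^ k) =
      PowerSeries.mk (fun k => (Q ^ 2 * X) ^ k) + PowerSeries.mk (fun k => (Qi ^ 2 * X) ^ k) -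
        2 * PowerSeries.mk (fun k => X ^ k) := by
    ext n
    have h2 : (2 : PowerSeries R) = PowerSeries.C (2 : R) := (map_ofNat PowerSeries.C 2).symm
    rw [h2, map_sub, map_add, PowerSeries.coeff_C_mul, PowerSeries.coeff_mk, PowerSeries.coeff_mk,
      PowerSeries.coeff_mk, PowerSeries.coeff_mk]
    have h3 : Q ^ n * Qi ^ n = 1 := by rw [← mul_pow, hQ, one_pow]
    calc (Q ^ n - Qi ^ n) ^ 2 * X ^ n
        = (Q ^ 2 * X) ^ n + (Qi ^ 2 * X) ^ n - 2 * (Q ^ n * Qi ^ n) * X ^ n := by
          rw [mul_pow, mul_pow, ← pow_mul, ← pow_mul]; ring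
      _ = _ := by rw [h3, mul_one]
  have hS := lin X
  have hK := quad X
  have hU := geom (Q ^ 2 * X)
  have hV := geom (Qi ^ 2 * X)
  have hW := geom X
  rw [e1]
  set S := PowerSeries.mk (fun k => (k : R) * X ^ k)
  set K := PowerSeries.mk (fun k => (k : R) * ((k : R) * X ^ k))
  set U := PowerSeries.mk (fun k => (Q ^ 2 * X) ^ k)
  set V := PowerSeries.mk (fun k => (Qi ^ 2 * X) ^ k)
  set W := PowerSeries.mk (fun k => X ^ k)
  set z : PowerSeries R := PowerSeries.X
  have hQ' : PowerSeries.C Q * PowerSeries.C Qi = (1 : PowerSeries R) := by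
    rw [← map_mul, hQ, map_one]
  simp only [map_mul, map_pow, map_sub] at hU hV ⊢
  set x : PowerSeries R := PowerSeries.C X
  set A : PowerSeries R := PowerSeries.C Q
  set B : PowerSeries R := PowerSeries.C Qi
  have hP : (1 - (A - B) ^ 2 * S) * (1 - x * z) ^ 2 = (1 - A ^ 2 * x * z) * (1 - B ^ 2 * x * z) := by
    linear_combination (-(A - B) ^ 2) * hS + (2 * x * z - x ^ 2 * z ^ 2 * (A * B + 1)) * hQ'
  have hR : (1 - x * z) * ((1 - A ^ 2 * x * z) * (1 - B ^ 2 * x * z)) * (U + V - 2 * W) =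
      (A - B) ^ 2 * (x * z * (1 + x * z)) := by
    linear_combination ((1 - x * z) * (1 - B ^ 2 * x * z)) * hU +
      ((1 - x * z) * (1 - A ^ 2 * x * z)) * hV -
      2 * ((1 - A ^ 2 * x * z) * (1 - B ^ 2 * x * z)) * hW +
      (2 * x * z - 2 * x ^ 2 * z ^ 2 * (A * B + 1) + 2 * x ^ 2 * z ^ 2) * hQ'
  refine (hu.pow 3).mul_left_cancel ?_
  calc (1 - x * z) ^ 3 * ((1 - (A - B) ^ 2 * S) * (U + V - 2 * W))
      = (1 - x * z) * ((1 - (A - B) ^ 2 * S) * (1 - x * z) ^ 2) * (U + V - 2 * W) := by ring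
    _ = (A - B) ^ 2 * (x * z * (1 + x * z)) := by rw [hP, hR]
    _ = (1 - x * z) ^ 3 * ((A - B) ^ 2 * K) := by
        rw [← hK]; ring

/-- `B G = 1` -/
theorem rel_one (b β : ℕ → R) (h : ∀ k, b k = β k + ∑ r ∈ Finset.range k, β r * b (k - 1 - r)) :
    (1 - PowerSeries.X * PowerSeries.mk β) * Gser b = 1 := by
  have h1 : (PowerSeries.mk b : PowerSeries R) = PowerSeries.mk β * Gser b := by
    ext k
    rw [Gser, mul_add, mul_one, mul_left_comm, map_add, PowerSeries.coeff_mk, PowerSeries.coeff_mk]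
    cases k with
    | zero =>
      rw [h 0]
      simp
    | succ k =>
      rw [PowerSeries.coeff_succ_X_mul, PowerSeries.coeff_mul,
        Finset.Nat.sum_antidiagonal_eq_sum_range_succ_mk, h (k + 1)]
      congr 1
      refine Finset.sum_congr rfl fun r _ => ?_
      simp
  rw [sub_mul, one_mul, mul_assoc, ← h1, Gser]
  ring

/-- `z F'` -/
def thet (F : PowerSeries R) : PowerSeries R := PowerSeries.X * PowerSeries.derivative R F

theorem thet_mul (F G : PowerSeries R) : thet (F * G) = thet F * G + F * thet G := by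
  unfold thet
  rw [Derivation.leibniz, smul_eq_mul, smul_eq_mul]
  ring

theorem thet_one : thet (1 : PowerSeries R) = 0 := by
  unfold thet
  rw [Derivation.map_one_eq_zero, mul_zero]

theorem coeff_thet (F : PowerSeries R) (n : ℕ) :
    PowerSeries.coeff n (thet F) = (n : R) * PowerSeries.coeff n F := by
  unfold thet
  cases n with
  | zero => simp
  | succ n =>
    rw [PowerSeries.coeff_succ_X_mul, PowerSeries.coeff_derivative]
    push_cast
    ring

/-- `z B' = - Π B` -/
theorem thet_B [Algebra ℂ R] (hG : S_GDER) (b β : ℕ → R)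
    (h : ∀ k, b k = β k + ∑ r ∈ Finset.range k, β r * b (k - 1 - r)) :
    thet (1 - PowerSeries.X * PowerSeries.mk β) =
      -(PowerSeries.mk (piv b β) * (1 - PowerSeries.X * PowerSeries.mk β)) := by
  have h1 := rel_one b β h
  have h2 : thet (Gser b) = PowerSeries.mk (piv b β) * Gser b := hG R b β h
  have h3 := thet_mul (1 - PowerSeries.X * PowerSeries.mk β) (Gser b)
  rw [h1, thet_one, h2] at h3
  set B := 1 - PowerSeries.X * PowerSeries.mk β
  linear_combination (-B) * h3 + (-(thet B) - B * PowerSeries.mk (piv b β)) * h1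

/-- PSER -/
theorem sPSER (hG : S_GDER) : S_PSER := by
  intro R _ _ X q c C b β b' β' hq hC hβ hβ' hb hb' k
  set Q : R := algebraMap ℂ R q with hQdef
  set Qi : R := algebraMap ℂ R q⁻¹ with hQidef
  have hQ : Q * Qi = 1 := by
    rw [hQdef, hQidef, ← map_mul, mul_inv_cancel₀ hq, map_one]
  -- the series
  set z : PowerSeries R := PowerSeries.X with hz
  set S : PowerSeries R := PowerSeries.mk (fun k => (k : R) * X ^ k) with hS
  set ρ : PowerSeries R := PowerSeries.mk (fun k => (Q ^ k - Qi ^ k) ^ 2 * X ^ k) with hρ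
  set ch : PowerSeries R := PowerSeries.mk (fun k => if k = 0 then 0 else c k) with hch
  set Ch : PowerSeries R := PowerSeries.mk (fun k => if k = 0 then 0 else C k) with hCh
  set B : PowerSeries R := 1 - z * PowerSeries.mk β with hB
  set B' : PowerSeries R := 1 - z * PowerSeries.mk β' with hB'
  set A₁ : PowerSeries R := PowerSeries.C Q with hA₁
  set A₂ : PowerSeries R := PowerSeries.C Qi with hA₂
  have hA : A₁ * A₂ = 1 := by rw [hA₁, hA₂, ← map_mul, hQ, map_one]
  have hω : (A₁ - A₂) ^ 2 = PowerSeries.C ((Q - Qi) ^ 2) := by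
    rw [hA₁, hA₂, map_pow, map_sub]
  -- (2)
  have hBc : B = 1 + (A₁ - A₂) * A₂ * ch := by
    rw [hB, sub_eq_add_neg]
    congr 1
    ext n
    have e : (A₁ - A₂) * A₂ = PowerSeries.C ((Q - Qi) * Qi) := by
      rw [hA₁, hA₂, map_mul, map_sub]
    rw [e, PowerSeries.coeff_C_mul, hch, PowerSeries.coeff_mk, map_neg]
    cases n with
    | zero => simp [hz]
    | succ n =>
      rw [hz, PowerSeries.coeff_succ_X_mul, PowerSeries.coeff_mk, hβ, if_neg (Nat.succ_ne_zero n),
        Algebra.smul_def, map_mul, map_neg, map_sub]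
      ring
  have hBC : B' = 1 + (A₁ - A₂) * A₂ * Ch := by
    rw [hB', sub_eq_add_neg]
    congr 1
    ext n
    have e : (A₁ - A₂) * A₂ = PowerSeries.C ((Q - Qi) * Qi) := by
      rw [hA₁, hA₂, map_mul, map_sub]
    rw [e, PowerSeries.coeff_C_mul, hCh, PowerSeries.coeff_mk, map_neg]
    cases n with
    | zero => simp [hz]
    | succ n =>
      rw [hz, PowerSeries.coeff_succ_X_mul, PowerSeries.coeff_mk, hβ', if_neg (Nat.succ_ne_zero n),
        Algebra.smul_def, map_mul, map_neg, map_sub]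
      ring
  have hrec : Ch = ch + (A₁ - A₂) * A₁ * S + (A₁ - A₂) ^ 2 * (Ch * S) := by
    ext n
    have e : (A₁ - A₂) * A₁ = PowerSeries.C ((Q - Qi) * Q) := by
      rw [hA₁, hA₂, map_mul, map_sub]
    rw [e, hω, map_add, map_add, PowerSeries.coeff_C_mul, PowerSeries.coeff_C_mul]
    cases n with
    | zero => simp [hch, hCh, hS]
    | succ n =>
      rw [hCh, hch, hS, PowerSeries.coeff_mk, PowerSeries.coeff_mk, PowerSeries.coeff_mk,
        PowerSeries.coeff_mul, Finset.Nat.sum_antidiagonal_eq_sum_range_succ_mk,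
        if_neg (Nat.succ_ne_zero n), if_neg (Nat.succ_ne_zero n), hC (n + 1) (by omega),
        Algebra.smul_def, Algebra.smul_def]
      have e1 : ∑ i ∈ Finset.Ico 1 (n + 1), (((n + 1 - i : ℕ) : ℂ)) • (C i * X ^ (n + 1 - i)) =
          ∑ r ∈ Finset.range (n + 1).succ,
            (PowerSeries.coeff (r, n + 1 - r).1 (PowerSeries.mk fun k => if k = 0 then 0 else C k)) *
            (PowerSeries.coeff (r, n + 1 - r).2 (PowerSeries.mk fun k => (k : R) * X ^ k)) := by
        rw [Finset.sum_range_succ, ← Finset.sum_range_add_sum_Ico _ (Nat.one_le_iff_ne_zero.2 (Nat.succ_ne_zero n) : 1 ≤ n + 1)]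
        simp only [PowerSeries.coeff_mk, Finset.sum_range_one, if_true, zero_mul, zero_add,
          Nat.sub_self, Nat.cast_zero, mul_zero, add_zero]
        refine Finset.sum_congr rfl fun i hi => ?_
        rw [Finset.mem_Ico] at hi
        rw [if_neg (by omega), Nat.cast_smul_eq_nsmul, nsmul_eq_mul]
        ring
      rw [e1]
      simp only [map_mul, map_sub, map_pow, map_natCast]
      ring
  have hgB : (1 - (A₁ - A₂) ^ 2 * S) * B' = B := by
    rw [hBc, hBC]
    linear_combination ((A₁ - A₂) * A₂) * hrec + ((A₁ - A₂) ^ 2 * S) * hA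
  -- (3)
  have hρ' : (1 - (A₁ - A₂) ^ 2 * S) * ρ = -(thet (1 - (A₁ - A₂) ^ 2 * S)) := by
    rw [hω, hS, hρ, rho_eq X Q Qi hQ]
    ext n
    rw [map_neg, coeff_thet, map_sub, PowerSeries.coeff_C_mul, PowerSeries.coeff_C_mul,
      PowerSeries.coeff_mk, PowerSeries.coeff_mk, PowerSeries.coeff_one]
    split_ifs with h
    · subst h; simp
    · ring
  -- (4)
  have h1 := thet_B hG b β hb
  have h2 := thet_B hG b' β' hb'
  rw [← hz, ← hB] at h1
  rw [← hz, ← hB'] at h2
  have h3 := thet_mul (1 - (A₁ - A₂) ^ 2 * S) B'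
  rw [hgB, h1, h2] at h3
  have h4 : B * PowerSeries.mk (piv b β) = B * (ρ + PowerSeries.mk (piv b' β')) := by
    linear_combination (-1 : PowerSeries R) * h3 - B' * hρ' + (ρ + PowerSeries.mk (piv b' β')) * hgB
  have hu : IsUnit B := by
    rw [hB, PowerSeries.isUnit_iff_constantCoeff]
    simp [hz]
  have h5 := hu.mul_left_cancel h4
  have h6 := congrArg (PowerSeries.coeff k) h5
  rw [map_add, PowerSeries.coeff_mk, PowerSeries.coeff_mk, PowerSeries.coeff_mk] at h6
  rw [h6, Algebra.smul_def, map_pow, map_sub, map_pow, map_pow]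
  ring

end

end Pool.Agent.Helper77.SQ
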