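import Pool.Agent.Helper84.SQ.GoalsA

/-!
# Packet SQ-RND: rounding for totally unimodular systems
-/

namespace Pool.Agent.Helper77.SQ

open Pool.Agent.Helper84.SQ Matrix

theorem vertex {ι : Type} [Fintype ι] [DecidableEq ι] {n : ℕ} (A : Matrix ι (Fin n) ℤ) (β : ι → ℝ)
    (c : Fin n → ℝ) (hb : ∀ v : Fin n → ℝ, v ≠ 0 → ∃ i, 0 < ∑ j, (A i j : ℝ) * v j) :
    ∀ (k : ℕ) (x : Fin n → ℝ), (∀ i, ∑ j, (A i j : ℝ) * x j ≤ β i) →
    (Finset.univ.filter (fun i => ∑ j, (A i j : ℝ) * x j ≠ β i)).card ≤ k →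
    ∃ x' : Fin n → ℝ, (∀ i, ∑ j, (A i j : ℝ) * x' j ≤ β i) ∧
      ∑ j, c j * x' j ≤ ∑ j, c j * x j ∧
      ∀ v : Fin n → ℝ, (∀ i, ∑ j, (A i j : ℝ) * x' j = β i → ∑ j, (A i j : ℝ) * v j = 0) →
        v = 0 := by
  have lin : ∀ (a x v : Fin n → ℝ) (t : ℝ), ∑ j, a j * (x j + t * v j) =
      ∑ j, a j * x j + t * ∑ j, a j * v j := by
    intro a x v t
    rw [Finset.mul_sum, ← Finset.sum_add_distrib]
    exact Finset.sum_congr rfl fun j _ => by ring
  have move : ∀ (x : Fin n → ℝ), (∀ i, ∑ j, (A i j : ℝ) * x j ≤ β i) →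
      (¬ ∀ v : Fin n → ℝ, (∀ i, ∑ j, (A i j : ℝ) * x j = β i → ∑ j, (A i j : ℝ) * v j = 0) →
        v = 0) → ∃ x' : Fin n → ℝ, (∀ i, ∑ j, (A i j : ℝ) * x' j ≤ β i) ∧
      ∑ j, c j * x' j ≤ ∑ j, c j * x j ∧
      (Finset.univ.filter (fun i => ∑ j, (A i j : ℝ) * x' j ≠ β i)).card <
      (Finset.univ.filter (fun i => ∑ j, (A i j : ℝ) * x j ≠ β i)).card := by
    intro x hx hn
    have hn2 : ∃ v : Fin n → ℝ, v ≠ 0 ∧ (∀ i, ∑ j, (A i j : ℝ) * x j = β i →
        ∑ j, (A i j : ℝ) * v j = 0) ∧ ∑ j, c j * v j ≤ 0 := by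
      push Not at hn
      obtain ⟨v, h1, h2⟩ := hn
      by_cases h3 : ∑ j, c j * v j ≤ 0
      · exact ⟨v, h2, h1, h3⟩
      · refine ⟨-v, neg_ne_zero.2 h2, fun i hi => ?_, ?_⟩
        · have := h1 i hi
          simp only [Pi.neg_apply, mul_neg, Finset.sum_neg_distrib, this, neg_zero]
        · simp only [Pi.neg_apply, mul_neg, Finset.sum_neg_distrib]
          linarith
    obtain ⟨v, hv, ht, hc⟩ := hn2
    obtain ⟨i1, hi1⟩ := hb v hv
    obtain ⟨i0, hi0, hmin⟩ := Finset.exists_min_image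
      (Finset.univ.filter (fun i => 0 < ∑ j, (A i j : ℝ) * v j))
      (fun i => (β i - ∑ j, (A i j : ℝ) * x j) / ∑ j, (A i j : ℝ) * v j)
      ⟨i1, by simpa using hi1⟩
    rw [Finset.mem_filter] at hi0
    have hp0 := hi0.2
    set t : ℝ := (β i0 - ∑ j, (A i0 j : ℝ) * x j) / ∑ j, (A i0 j : ℝ) * v j with htd
    have ht0 : 0 ≤ t := div_nonneg (by linarith [hx i0]) hp0.le
    have htm : t * ∑ j, (A i0 j : ℝ) * v j = β i0 - ∑ j, (A i0 j : ℝ) * x j := by
      rw [htd]
      field_simp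
    refine ⟨fun j => x j + t * v j, ?_, ?_, ?_⟩
    · intro i
      rw [lin (fun j => (A i j : ℝ)) x v t]
      by_cases hi : 0 < ∑ j, (A i j : ℝ) * v j
      · have h4 := hmin i (by simpa using hi)
        rw [le_div_iff₀ hi] at h4
        have h5 : t * ∑ j, (A i j : ℝ) * v j ≤ β i - ∑ j, (A i j : ℝ) * x j := h4
        linarith
      · rw [not_lt] at hi
        have h6 := mul_nonpos_of_nonneg_of_nonpos ht0 hi
        linarith [hx i]
    · rw [lin c x v t]
      have h6 := mul_nonpos_of_nonneg_of_nonpos ht0 hc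
      linarith
    · apply Finset.card_lt_card
      rw [Finset.ssubset_iff_of_subset]
      · refine ⟨i0, ?_, ?_⟩
        · rw [Finset.mem_filter]
          refine ⟨Finset.mem_univ _, fun h7 => ?_⟩
          rw [ht i0 h7] at hp0
          exact lt_irrefl _ hp0
        · rw [Finset.mem_filter]
          rintro ⟨_, h8⟩
          apply h8
          rw [lin (fun j => (A i0 j : ℝ)) x v t, htm]
          ring
      · intro i hi
        rw [Finset.mem_filter] at hi ⊢
        refine ⟨Finset.mem_univ _, fun h9 => hi.2 ?_⟩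
        rw [lin (fun j => (A i j : ℝ)) x v t, ht i h9, h9]
        ring
  intro k
  induction k with
  | zero =>
    intro x hx hk
    by_cases h : ∀ v : Fin n → ℝ, (∀ i, ∑ j, (A i j : ℝ) * x j = β i →
        ∑ j, (A i j : ℝ) * v j = 0) → v = 0
    · exact ⟨x, hx, le_refl _, h⟩
    · obtain ⟨x', h1, h2, h3⟩ := move x hx h
      omega
  | succ k ih =>
    intro x hx hk
    by_cases h : ∀ v : Fin n → ℝ, (∀ i, ∑ j, (A i j : ℝ) * x j = β i →
        ∑ j, (A i j : ℝ) * v j = 0) → v = 0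
    · exact ⟨x, hx, le_refl _, h⟩
    · obtain ⟨x', h1, h2, h3⟩ := move x hx h
      obtain ⟨x2, h4, h5, h6⟩ := ih x' h1 (by omega)
      exact ⟨x2, h4, h5.trans h2, h6⟩

theorem select {ι : Type} [Fintype ι] {n : ℕ} (A : Matrix ι (Fin n) ℤ) (T : ι → Prop)
    (hT : ∀ v : Fin n → ℝ, (∀ i, T i → ∑ j, (A i j : ℝ) * v j = 0) → v = 0) :
    ∃ f : Fin n → ι, (∀ k, T (f k)) ∧ (A.submatrix f id).det ≠ 0 := by
  classical
  set r : {i // T i} → Fin n → ℝ := fun i j => (A i.1 j : ℝ) with hr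
  have hspan : Submodule.span ℝ (Set.range r) = ⊤ := by
    by_contra hne
    obtain ⟨f, hf0, hf⟩ := Submodule.exists_le_ker_of_lt_top _ (lt_top_iff_ne_top.2 hne)
    have hfe : ∀ x : Fin n → ℝ, f x = ∑ j, x j * f (Pi.single j 1) := by
      intro x
      conv_lhs => rw [pi_eq_sum_univ' x]
      rw [map_sum]
      refine Finset.sum_congr rfl fun j _ => ?_
      rw [map_smul, smul_eq_mul]
    have h1 := hT (fun j => f (Pi.single j 1)) (by
      intro i hi
      have h2 : f (r ⟨i, hi⟩) = 0 := by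
        have := hf (Submodule.subset_span ⟨⟨i, hi⟩, rfl⟩)
        simpa using this
      rw [hfe] at h2
      exact h2)
    apply hf0
    ext x
    simp only [LinearMap.coe_comp, LinearMap.coe_single, Function.comp_apply,
      LinearMap.zero_comp, LinearMap.zero_apply]
    exact congrFun h1 x
  obtain ⟨κ, a, ha, hsp, hli⟩ := exists_linearIndependent' ℝ r
  rw [hspan] at hsp
  set b : Module.Basis κ ℝ (Fin n → ℝ) := Module.Basis.mk hli hsp.ge with hb
  have hfin : Finite κ := Module.Finite.finite_basis b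
  have hfin2 : Fintype κ := Fintype.ofFinite κ
  have hcard : Fintype.card κ = n := by
    have h3 := Module.finrank_eq_card_basis b
    rw [Module.finrank_fin_fun] at h3
    exact h3.symm
  set e : κ ≃ Fin n := Fintype.equivFinOfCardEq hcard with he
  refine ⟨fun k => (a (e.symm k)).1, fun k => (a (e.symm k)).2, ?_⟩
  intro hdet
  set B := A.submatrix (fun k => (a (e.symm k)).1) id with hB
  have h4 : LinearIndependent ℝ (B.map (Int.castRingHom ℝ)).row := by
    have h5 : (B.map (Int.castRingHom ℝ)).row = (r ∘ a) ∘ e.symm := by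
      funext k j
      simp [hB, hr, Matrix.row]
    rw [h5]
    exact hli.comp _ e.symm.injective
  rw [Matrix.linearIndependent_rows_iff_isUnit, Matrix.isUnit_iff_isUnit_det,
    isUnit_iff_ne_zero] at h4
  apply h4
  have h6 : (B.map (Int.castRingHom ℝ)).det = (Int.castRingHom ℝ) B.det :=
    ((Int.castRingHom ℝ).map_det B).symm
  rw [h6, hdet, map_zero]

theorem core {ι : Type} {n : ℕ} [DecidableEq ι] (A : Matrix ι (Fin n) ℤ)
    (hA : A.IsTotallyUnimodular)
    (row : Fin n → ι) (hrow : ∀ j, A (row j) = Pi.single j 1) (f : Fin n → ι)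
    (hf : (A.submatrix f id).det ≠ 0) (bt : Fin n → ℤ) (d : Fin n → ℝ) (δ : ℝ)
    (hd : ∀ k, |d k| ≤ δ) (x : Fin n → ℝ)
    (hx : ∀ k, ∑ j, (A (f k) j : ℝ) * x j = bt k + d k) :
    ∃ y : Fin n → ℤ, ∀ j, |x j - y j| ≤ n * δ := by
  set B := A.submatrix f id with hB
  have hTU := (isTotallyUnimodular_iff A).1 hA
  have hdet : B.det * B.det = 1 := by
    obtain ⟨s, hs⟩ := hTU n f id
    rw [← hB] at hs
    cases s
    · exfalso; apply hf; rw [← hs]; rfl
    · rw [← hs]; rfl
    · rw [← hs]; rfl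
  have hadj : ∀ i k, |(B.adjugate i k : ℝ)| ≤ 1 := by
    intro i k
    rw [Matrix.adjugate_apply]
    have h1 : B.updateRow k (Pi.single i 1) = A.submatrix (Function.update f k (row i)) id := by
      ext a b
      rw [Matrix.updateRow_apply, Matrix.submatrix_apply, Function.update_apply]
      by_cases h : a = k
      · rw [if_pos h, if_pos h, hrow]; rfl
      · rw [if_neg h, if_neg h]; rfl
    rw [h1]
    obtain ⟨s, hs⟩ := hTU n (Function.update f k (row i)) id
    rw [← hs]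
    cases s <;> simp
  refine ⟨fun j => B.det * (B.adjugate *ᵥ bt) j, fun j => ?_⟩
  -- real versions
  have hBx : (B.map (Int.castRingHom ℝ)) *ᵥ x = fun k => (bt k : ℝ) + d k := by
    funext k
    rw [← hx k]
    rfl
  have h2 : ((B.map (Int.castRingHom ℝ)).adjugate) *ᵥ ((B.map (Int.castRingHom ℝ)) *ᵥ x) =
      (B.map (Int.castRingHom ℝ)).det • x := by
    rw [Matrix.mulVec_mulVec, Matrix.adjugate_mul, Matrix.smul_mulVec, Matrix.one_mulVec]
  have h3 : (B.map (Int.castRingHom ℝ)).det = (B.det : ℝ) :=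
    ((Int.castRingHom ℝ).map_det B).symm
  have h4 : (B.map (Int.castRingHom ℝ)).adjugate = (B.adjugate).map (Int.castRingHom ℝ) :=
    ((Int.castRingHom ℝ).map_adjugate B).symm
  rw [h3, h4, hBx] at h2
  have h5 := congrFun h2 j
  have h6 : ((B.adjugate).map (Int.castRingHom ℝ) *ᵥ fun k => (bt k : ℝ) + d k) j =
      ((B.adjugate *ᵥ bt) j : ℝ) + ∑ k, (B.adjugate j k : ℝ) * d k := by
    simp only [Matrix.mulVec, dotProduct, Matrix.map_apply, eq_intCast, Int.cast_sum,
      Int.cast_mul]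
    rw [← Finset.sum_add_distrib]
    exact Finset.sum_congr rfl fun k _ => by ring
  rw [h6] at h5
  simp only [Pi.smul_apply, smul_eq_mul] at h5
  have hdr : (B.det : ℝ) * B.det = 1 := by exact_mod_cast hdet
  have hdabs : |(B.det : ℝ)| = 1 := by
    have h7 : |(B.det : ℝ)| * |(B.det : ℝ)| = 1 := by rw [← abs_mul, hdr, abs_one]
    nlinarith [abs_nonneg (B.det : ℝ)]
  have h8 : x j - ((B.det * (B.adjugate *ᵥ bt) j : ℤ) : ℝ) =
      B.det * ∑ k, (B.adjugate j k : ℝ) * d k := by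
    rw [Int.cast_mul]
    have h9 : (B.det : ℝ) * (((B.adjugate *ᵥ bt) j : ℝ) + ∑ k, (B.adjugate j k : ℝ) * d k) =
        x j := by
      rw [h5, ← mul_assoc, hdr, one_mul]
    rw [← h9]
    ring
  rw [h8, abs_mul, hdabs, one_mul]
  calc |∑ k, (B.adjugate j k : ℝ) * d k| ≤ ∑ k, |(B.adjugate j k : ℝ) * d k| :=
        Finset.abs_sum_le_sum_abs _ _
    _ ≤ ∑ k : Fin n, δ := by
        refine Finset.sum_le_sum fun k _ => ?_
        rw [abs_mul]
        have h10 := hadj j k
        have h11 := hd k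
        nlinarith [abs_nonneg (B.adjugate j k : ℝ), abs_nonneg (d k)]
    _ = n * δ := by simp

theorem rnd : RndStmt := by
  intro m n W w c z δ hW hδ hδ1 hz
  set A : Matrix (Fin m ⊕ (Fin n ⊕ Fin n)) (Fin n) ℤ := fromRows W (fromRows 1 (-1)) with hAdef
  have hA : A.IsTotallyUnimodular := by
    apply hW.fromRows_unitlike
    intro _ i
    rcases i with j | j
    · refine ⟨j, 1, ?_⟩
      funext l
      simp [Matrix.one_apply, Pi.single_apply, eq_comm]
    · refine ⟨j, -1, ?_⟩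
      funext l
      simp only [fromRows_apply_inr, Matrix.neg_apply, Matrix.one_apply, Pi.single_apply]
      by_cases h : j = l
      · rw [if_pos h, if_pos h.symm]; rfl
      · rw [if_neg h, if_neg (fun h' => h h'.symm)]; rfl
  have a1 : ∀ i j, A (Sum.inl i) j = W i j := fun i j => rfl
  have a2 : ∀ i j, A (Sum.inr (Sum.inl i)) j = if i = j then 1 else 0 := fun i j => by
    show (1 : Matrix (Fin n) (Fin n) ℤ) i j = _
    rw [Matrix.one_apply]
  have a3 : ∀ i j, A (Sum.inr (Sum.inr i)) j = if i = j then -1 else 0 := fun i j => by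
    show (-1 : Matrix (Fin n) (Fin n) ℤ) i j = _
    rw [Matrix.neg_apply, Matrix.one_apply]
    split_ifs <;> simp
  have s2 : ∀ (i : Fin n) (v : Fin n → ℝ), ∑ j, (A (Sum.inr (Sum.inl i)) j : ℝ) * v j = v i := by
    intro i v
    rw [Finset.sum_eq_single i]
    · rw [a2, if_pos rfl]; push_cast; ring
    · intro j _ hj
      rw [a2, if_neg (fun h => hj h.symm)]; push_cast; ring
    · intro h; exact absurd (Finset.mem_univ i) h
  have s3 : ∀ (i : Fin n) (v : Fin n → ℝ),
      ∑ j, (A (Sum.inr (Sum.inr i)) j : ℝ) * v j = - v i := by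
    intro i v
    rw [Finset.sum_eq_single i]
    · rw [a3, if_pos rfl]; push_cast; ring
    · intro j _ hj
      rw [a3, if_neg (fun h => hj h.symm)]; push_cast; ring
    · intro h; exact absurd (Finset.mem_univ i) h
  set bt : Fin m ⊕ (Fin n ⊕ Fin n) → ℤ := Sum.elim w (Sum.elim (fun j => ⌊z j⌋ + 1)
    (fun j => -⌊z j⌋)) with hbt
  set dd : Fin m ⊕ (Fin n ⊕ Fin n) → ℝ := Sum.elim (fun _ => δ) (fun _ => 0) with hdd
  have hz' : ∀ i, ∑ j, (A i j : ℝ) * z j ≤ (bt i : ℝ) + dd i := by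
    intro i
    rcases i with i | i | i
    · exact hz i
    · rw [s2]
      simp only [hbt, hdd, Sum.elim_inr, Sum.elim_inl]
      push_cast
      linarith [(Int.lt_floor_add_one (z i)).le]
    · rw [s3]
      simp only [hbt, hdd, Sum.elim_inr]
      push_cast
      linarith [Int.floor_le (z i)]
  have hb : ∀ v : Fin n → ℝ, v ≠ 0 → ∃ i, 0 < ∑ j, (A i j : ℝ) * v j := by
    intro v hv
    obtain ⟨j, hj⟩ := Function.ne_iff.1 hv
    rcases lt_or_gt_of_ne hj with h | h
    · refine ⟨Sum.inr (Sum.inr j), ?_⟩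
      rw [s3]
      simpa using h
    · refine ⟨Sum.inr (Sum.inl j), ?_⟩
      rw [s2]
      exact h
  obtain ⟨x, hx1, hx2, hx3⟩ := vertex A (fun i => (bt i : ℝ) + dd i) c hb _ z hz' (le_refl _)
  obtain ⟨f, hf1, hf2⟩ := select A (fun i => ∑ j, (A i j : ℝ) * x j = (bt i : ℝ) + dd i) hx3
  obtain ⟨y, hy⟩ := core A hA (fun j => Sum.inr (Sum.inl j)) (fun j => by
      funext l
      rw [a2, Pi.single_apply]
      by_cases h : j = l
      · rw [if_pos h, if_pos h.symm]
      · rw [if_neg h, if_neg (fun h' => h h'.symm)]) f hf2 (fun k => bt (f k))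
    (fun k => dd (f k)) δ (fun k => by
      rcases f k with i | i
      · simp only [hdd, Sum.elim_inl]
        rw [abs_of_nonneg hδ]
      · simp only [hdd, Sum.elim_inr, abs_zero]
        exact hδ) x hf1
  have hnn : (0 : ℝ) ≤ n := Nat.cast_nonneg n
  have hnδ : (n : ℝ) * δ < 1 := by
    have h1 : (n : ℝ) ≤ (n : ℝ) ^ 2 + 1 := by nlinarith [sq_nonneg ((n : ℝ) - 1)]
    have h2 := mul_le_mul_of_nonneg_right h1 hδ
    linarith
  have hy1 : ∀ j, (y j : ℝ) ≤ x j + n * δ := fun j => by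
    have := (abs_le.1 (hy j)).1; linarith
  have hy2 : ∀ j, x j - n * δ ≤ (y j : ℝ) := fun j => by
    have := (abs_le.1 (hy j)).2; linarith
  refine ⟨y, ?_, ?_, ?_⟩
  · intro i
    have h3 := hx1 (Sum.inl i)
    have h4 : ∑ j, (W i j : ℝ) * (y j : ℝ) ≤ ∑ j, ((W i j : ℝ) * x j + n * δ) := by
      refine Finset.sum_le_sum fun j _ => ?_
      have h5 : |(W i j : ℝ)| ≤ 1 := by
        obtain ⟨s, hs⟩ := hW.apply i j
        rw [← hs]
        cases s <;> simp
      have h6 : (W i j : ℝ) * ((y j : ℝ) - x j) ≤ n * δ := by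
        have h7 : |(y j : ℝ) - x j| ≤ n * δ := by rw [abs_sub_comm]; exact hy j
        calc (W i j : ℝ) * ((y j : ℝ) - x j) ≤ |(W i j : ℝ) * ((y j : ℝ) - x j)| := le_abs_self _
          _ = |(W i j : ℝ)| * |(y j : ℝ) - x j| := abs_mul _ _
          _ ≤ 1 * (n * δ) := mul_le_mul h5 h7 (abs_nonneg _) zero_le_one
          _ = n * δ := one_mul _
      linarith
    rw [Finset.sum_add_distrib, Finset.sum_const, Finset.card_univ, Fintype.card_fin,
      nsmul_eq_mul] at h4
    have h8 : ∑ j, (W i j : ℝ) * x j ≤ (w i : ℝ) + δ := h3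
    have h9 : ∑ j, (W i j : ℝ) * (y j : ℝ) < (w i : ℝ) + 1 := by
      have : (n : ℝ) * (n * δ) + δ = ((n : ℝ) ^ 2 + 1) * δ := by ring
      linarith
    have h10 : ((∑ j, W i j * y j : ℤ) : ℝ) < ((w i + 1 : ℤ) : ℝ) := by
      push_cast
      exact h9
    have h11 : (∑ j, W i j * y j : ℤ) < w i + 1 := by exact_mod_cast h10
    linarith
  · intro j
    have h3 := hx1 (Sum.inr (Sum.inl j))
    have h4 := hx1 (Sum.inr (Sum.inr j))
    rw [s2] at h3
    rw [s3] at h4
    simp only [hbt, hdd, Sum.elim_inr, Sum.elim_inl] at h3 h4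
    push_cast at h3 h4
    constructor
    · have h5 : ((⌊z j⌋ - 1 : ℤ) : ℝ) < (y j : ℝ) := by
        push_cast
        linarith [hy2 j]
      have h6 : ⌊z j⌋ - 1 < y j := by exact_mod_cast h5
      linarith
    · have h5 : (y j : ℝ) < ((⌊z j⌋ + 2 : ℤ) : ℝ) := by
        push_cast
        linarith [hy1 j]
      have h6 : y j < ⌊z j⌋ + 2 := by exact_mod_cast h5
      linarith
  · have h3 : ∑ j, c j * (y j : ℝ) ≤ ∑ j, (c j * x j + n * δ * |c j|) := by
      refine Finset.sum_le_sum fun j _ => ?_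
      have h7 : |(y j : ℝ) - x j| ≤ n * δ := by rw [abs_sub_comm]; exact hy j
      have h8 : c j * ((y j : ℝ) - x j) ≤ n * δ * |c j| := by
        calc c j * ((y j : ℝ) - x j) ≤ |c j * ((y j : ℝ) - x j)| := le_abs_self _
          _ = |c j| * |(y j : ℝ) - x j| := abs_mul _ _
          _ ≤ |c j| * (n * δ) := mul_le_mul_of_nonneg_left h7 (abs_nonneg _)
          _ = n * δ * |c j| := by ring
      linarith
    rw [Finset.sum_add_distrib, ← Finset.mul_sum] at h3
    linarith

end Pool.Agent.Helper77.SQ
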