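import Pool.Agent.Helper84.SQ.GoalsD
import Pool.Agent.Helper32.SQ.CDB
import Pool.Agent.Helper22.SQ.BXO

/-!
# Packet UTA of the project SQ: the test for a decreasing ray
-/

namespace Pool.Agent.Helper77.SQ

open Pool.Agent.Helper81.CC Pool.Agent.Bin
open Pool.Agent.Helper84.SQ
open Pool.Agent.Helper92.FR (Qn Cst dot cut cini cen lv)
open Pool.Agent.Helper45.SQP (Inst TUInst Correct Code intCode)
open Pool.Agent.Helper32.SQ (code2_length code2_getElem val_zof)
open Pool.Agent.Helper22.SQ (Unit1 unit1_box mem_sol_append mem_sol_box)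

/-! ### Sums over lists -/

private theorem zip_sum {A B : Type} (g : A → B → ℤ) (a : A) (b : B) :
    ∀ (d : ℕ) (G : List A) (x : List B), G.length = d → x.length = d →
      (List.zipWith g G x).sum = ∑ j : Fin d, g (G.getD j a) (x.getD j b) := by
  intro d
  induction d with
  | zero =>
    intro G x hG hx
    rw [List.length_eq_zero_iff] at hG hx
    subst hG hx
    simp
  | succ d ih =>
    intro G x hG hx
    match G, x, hG, hx with
    | c :: G, y :: x, hG, hx =>
      rw [List.zipWith_cons_cons, List.sum_cons, Fin.sum_univ_succ,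
        ih G x (by simpa using hG) (by simpa using hx)]
      simp

/-- The value of `gv` as an integer. -/
private theorem val_gvZ (d : ℕ) (G : List (Zn × Zn)) (x : List Zn) (hG : G.length = d)
    (hx : x.length = d) : Zn.val (gv G x) =
      ∑ j : Fin d, (Zn.val (G.getD j (Zn.zero, Zn.zero)).1 * (lz d x j) ^ 2 +
        Zn.val (G.getD j (Zn.zero, Zn.zero)).2 * lz d x j) := by
  have h1 : Zn.val (gv G x) =
      (List.zipWith (fun (c : Zn × Zn) (y : Zn) =>
        Zn.val c.1 * (Zn.val y) ^ 2 + Zn.val c.2 * Zn.val y) G x).sum := by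
    unfold gv
    rw [Zn.val_sum, List.map_zipWith]
    congr 2
    funext c y
    rw [Zn.val_add, Zn.val_mul, Zn.val_mul, Zn.val_mul]
    ring
  rw [h1, zip_sum _ (Zn.zero, Zn.zero) Zn.zero d G x hG hx]
  rfl

/-! ### Coefficients of the homogeneous system -/

private theorem getD_map2 (I : Inst) {β : Type} (g : ((Bool × List Bool) × (Bool × Bool) × List Bool) → β)
    (b : β) (j : Fin I.n) : (I.code.2.map g).getD j b =
      g (intCode (I.h j), (decide (j ∈ I.C), decide (j ∈ I.V)), Nat.bits (I.q j)) := by
  have h : j.val < I.code.2.length := by rw [code2_length]; exact j.2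
  have h2 : j.val < (I.code.2.map g).length := by rw [List.length_map]; exact h
  rw [List.getD_eq_getElem _ _ h2, List.getElem_map, code2_getElem I j h]

private theorem lo_eq (I : Inst) (j : Fin I.n) :
    lz I.n (I.code.2.map fun e => if (e.2.1.1 || e.2.1.2) = true then Zn.zero
      else Zn.neg Zn.one) j = if j ∈ I.C ∪ I.V then 0 else -1 := by
  unfold lz
  rw [getD_map2]
  simp only [Bool.or_eq_true, decide_eq_true_eq, Finset.mem_union]
  split_ifs <;> simp

private theorem hi_eq (I : Inst) (j : Fin I.n) :
    lz I.n (I.code.2.map fun e => if (e.2.1.1 || e.2.1.2) = true then Zn.zero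
      else Zn.one) j = if j ∈ I.C ∪ I.V then 0 else 1 := by
  unfold lz
  rw [getD_map2]
  simp only [Bool.or_eq_true, decide_eq_true_eq, Finset.mem_union]
  split_ifs <;> simp

/-- The rows of the homogeneous system. -/
private theorem mem_rows (I : Inst) (r : Row) :
    r ∈ (rowsC I.code).map (fun r => (r.1, Zn.zero)) ↔
      ∃ i, r = ((List.ofFn fun j => intCode (I.W i j)).map zof, Zn.zero) := by
  unfold rowsC Inst.code
  simp only [List.map_map, List.mem_map, List.mem_ofFn, Function.comp_apply]
  constructor
  · rintro ⟨a, ⟨i, rfl⟩, rfl⟩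
    exact ⟨i, rfl⟩
  · rintro ⟨i, rfl⟩
    exact ⟨_, ⟨i, rfl⟩, rfl⟩

private theorem lz_row (I : Inst) (i : Fin I.m) :
    lz I.n ((List.ofFn fun j => intCode (I.W i j)).map zof) = I.W i := by
  funext j
  unfold lz
  have h : j.val < ((List.ofFn fun j => intCode (I.W i j)).map zof).length := by
    rw [List.length_map, List.length_ofFn]; exact j.2
  rw [List.getD_eq_getElem _ _ h, List.getElem_map, List.getElem_ofFn, val_zof]

private theorem mem_sol_rows (I : Inst) (x : Fin I.n → ℤ) :
    x ∈ Sol I.n ((rowsC I.code).map (fun r => (r.1, Zn.zero))) ↔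
      ∀ i, ∑ j, I.W i j * x j ≤ 0 := by
  unfold Sol
  simp only [Set.mem_setOf_eq]
  constructor
  · intro h i
    have := h _ ((mem_rows I _).2 ⟨i, rfl⟩)
    simp only [lz_row, Zn.val_zero] at this
    exact this
  · intro h r hr
    obtain ⟨i, rfl⟩ := (mem_rows I r).1 hr
    simp only [lz_row, Zn.val_zero]
    exact h i

/-- The integer solutions of the homogeneous system. -/
private theorem mem_hom (I : Inst) (x : Fin I.n → ℤ) : x ∈ Sol I.n (homC I.code) ↔
    (∀ i, ∑ j, I.W i j * x j ≤ 0) ∧ ∀ j, (if j ∈ I.C ∪ I.V then 0 else -1) ≤ x j ∧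
      x j ≤ if j ∈ I.C ∪ I.V then 0 else 1 := by
  unfold homC
  rw [code2_length, mem_sol_append, mem_sol_rows, mem_sol_box]
  simp only [lo_eq, hi_eq]

private theorem qF_lin (I : Inst) (j : Fin I.n) : qF I.n (linC I.code) j = 0 := by
  unfold qF linC
  rw [getD_map2]
  rfl

private theorem hF_lin (I : Inst) (j : Fin I.n) : hF I.n (linC I.code) j = I.h j := by
  unfold hF linC
  rw [getD_map2]
  simp only [val_zof]

private theorem fv_lin (I : Inst) (x : Fin I.n → ℤ) :
    fv I.n (linC I.code) x = ∑ j, I.h j * x j := by
  unfold fv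
  refine Finset.sum_congr rfl fun j _ => ?_
  rw [qF_lin, hF_lin]
  ring

private theorem gv_lin (I : Inst) (x : List Zn) (hx : x.length = I.n) :
    Zn.val (gv (linG I.code) x) = ∑ j, I.h j * lz I.n x j := by
  have hl : (linG I.code).length = I.n := by
    unfold linG
    rw [List.length_map, code2_length]
  rw [val_gvZ I.n _ x hl hx]
  refine Finset.sum_congr rfl fun j _ => ?_
  unfold linG
  rw [getD_map2]
  simp only [val_zof, Zn.val_zero]
  ring

/-- The bound for the linear coefficients. -/
private theorem h_le (I : Inst) (j : Fin I.n) : |I.h j| ≤ 2 ^ szC I.code := by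
  have h1 : (I.h j).natAbs < 2 ^ (Nat.bits (I.h j).natAbs).length := by
    rw [Nat.size_eq_bits_len]
    exact Nat.lt_size_self _
  have hj : j.val < I.code.2.length := by rw [code2_length]; exact j.2
  have h2 : (Nat.bits (I.h j).natAbs).length ≤ szC I.code := by
    have h3 : (Nat.bits (I.h j).natAbs).length + (Nat.bits (I.q j)).length ∈
        (I.code.2.map fun e => e.1.2.length + e.2.2.length) := by
      refine List.mem_map.2 ⟨I.code.2[j.val], List.getElem_mem hj, ?_⟩
      rw [code2_getElem I j hj]
      rfl
    have h4 := List.single_le_sum (fun x _ => Nat.zero_le x) _ h3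
    unfold szC
    omega
  have h5 : (I.h j).natAbs ≤ 2 ^ szC I.code :=
    h1.le.trans (Nat.pow_le_pow_right (by norm_num) h2)
  rw [Int.abs_eq_natAbs]
  exact_mod_cast h5

private theorem near_box (d : ℕ) (b : List Zn × List Zn) (R : List Row) (x : Fin d → ℝ)
    (hx : Near d (R ++ boxR d b) 1 x) (j : Fin d) :
    (lz d b.1 j : ℝ) - 1 ≤ x j ∧ x j ≤ lz d b.2 j + 1 := by
  have hs : ∀ s : Zn, ∑ k, (lz d (unitR d j s) k : ℝ) * x k = Zn.val s * x j := by
    intro s
    rw [Pool.Agent.Helper22.SQ.lz_unitR d j.val s j.2, Finset.sum_eq_single j]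
    · rw [show (⟨j.val, j.2⟩ : Fin d) = j from rfl, Pi.single_eq_same]
    · intro k _ hk
      rw [show (⟨j.val, j.2⟩ : Fin d) = j from rfl, Pi.single_eq_of_ne hk]
      simp
    · intro h
      exact absurd (Finset.mem_univ _) h
  constructor
  · have := hx (unitR d j (Zn.neg Zn.one), Zn.neg (b.1.getD j Zn.zero))
      (List.mem_append_right _ (List.mem_append_right _
        (List.mem_map.2 ⟨j.val, List.mem_range.2 j.2, rfl⟩)))
    simp only [hs, Zn.val_neg, Zn.val_one] at this
    unfold lz
    push_cast at this
    linarith
  · have := hx (unitR d j Zn.one, b.2.getD j Zn.zero)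
      (List.mem_append_right _ (List.mem_append_left _
        (List.mem_map.2 ⟨j.val, List.mem_range.2 j.2, rfl⟩)))
    simp only [hs, Zn.val_one] at this
    unfold lz
    push_cast at this
    linarith

/-- The homogeneous system is well formed. -/
private theorem ok_hom (hT : TurStmt) (I : Inst) (hW : I.W.IsTotallyUnimodular) :
    Ok (szC I.code + 2) I.n (homC I.code) (linC I.code) where
  d1 := I.n_pos
  dN := by
    unfold szC
    rw [code2_length]
    omega
  len := by
    intro r hr
    unfold homC at hr
    rw [code2_length] at hr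
    rcases List.mem_append.1 hr with hr | hr
    · obtain ⟨i, rfl⟩ := (mem_rows I r).1 hr
      simp only [List.length_map, List.length_ofFn]
    · exact (unit1_box I.n _ r hr).1
  lenF := by
    unfold linC
    rw [List.length_map, code2_length]
  tu := by
    apply hT _ _ _ I.W _ hW
    intro i
    have hmem : (homC I.code).get i ∈ homC I.code := List.get_mem _ _
    have hM : MR I.n (homC I.code) i = lz I.n ((homC I.code).get i).1 := rfl
    rw [hM]
    generalize (homC I.code).get i = r at hmem
    unfold homC at hmem
    rw [code2_length] at hmem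
    rcases List.mem_append.1 hmem with hr | hr
    · obtain ⟨i, rfl⟩ := (mem_rows I r).1 hr
      exact Or.inl ⟨i, lz_row I i⟩
    · rcases (unit1_box I.n _ r hr).2 with h | h
      · exact Or.inr (Or.inr (Or.inl h))
      · exact Or.inr (Or.inr (Or.inr (Or.inl h)))
  bd := by
    intro x hx j
    unfold homC at hx
    rw [code2_length] at hx
    have h := near_box I.n _ _ x hx j
    rw [lo_eq, hi_eq] at h
    have h4 : (4 : ℝ) ≤ 2 ^ (szC I.code + 2) := by
      rw [pow_add]
      have : (1 : ℝ) ≤ 2 ^ szC I.code := one_le_pow₀ (by norm_num)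
      linarith
    rw [abs_le]
    split_ifs at h
    · push_cast at h
      constructor <;> linarith [h.1, h.2]
    · push_cast at h
      constructor <;> linarith [h.1, h.2]
  cq := by
    intro j
    rw [qF_lin]
    positivity
  ch := by
    intro j
    rw [hF_lin]
    exact (h_le I j).trans (pow_le_pow_right₀ (by norm_num) (by omega))

theorem uta (hS : SlvStmt) (hT : TurStmt) (hR : RndStmt) : UtaStmt := by
  intro I hW
  have hok := ok_hom hT I hW
  have hslv := hS _ _ _ _ hok
  have h0 : (0 : Fin I.n → ℤ) ∈ Sol I.n (homC I.code) := by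
    rw [mem_hom]
    refine ⟨fun i => by simp, fun j => ?_⟩
    simp only [Pi.zero_apply]
    split_ifs <;> norm_num
  cases hs : solve (szC I.code + 2) I.n (homC I.code) (linC I.code) with
  | none =>
    exfalso
    have := hslv.1 hs
    rw [this] at h0
    exact h0
  | some x =>
    obtain ⟨hxl, hxS, hxm⟩ := hslv.2 x hs
    have hun : unb1 I.code = !Zn.le Zn.zero (gv (linG I.code) x) := by
      unfold unb1
      rw [code2_length, hs]
      rfl
    rw [mem_hom] at hxS
    constructor
    · intro hu
      rw [hun, Bool.not_eq_true', ← Bool.not_eq_true, Zn.le_iff, Zn.val_zero,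
        gv_lin I x hxl, not_le] at hu
      refine ⟨lz I.n x, hxS.1, fun j hj => ?_, hu⟩
      have := hxS.2 j
      rw [if_pos hj, if_pos hj] at this
      exact le_antisymm this.2 this.1
    · intro hu r hr hr0
      rw [hun, Bool.not_eq_false', Zn.le_iff, Zn.val_zero, gv_lin I x hxl] at hu
      by_contra hneg
      rw [not_le] at hneg
      set M : ℝ := 1 + ∑ j, |r j| with hM
      have hsn : 0 ≤ ∑ j, |r j| := Finset.sum_nonneg fun j _ => abs_nonneg _
      have hMp : 0 < M := by positivity
      have hrM : ∀ j, |r j / M| ≤ 1 := by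
        intro j
        rw [abs_div, abs_of_pos hMp, div_le_one hMp]
        have := Finset.single_le_sum (f := fun j => |r j|) (fun j _ => abs_nonneg _)
          (Finset.mem_univ j)
        linarith
      obtain ⟨y, hy, -, hyc⟩ := hR _ I.n (MR I.n (homC I.code))
        (fun i => Zn.val ((homC I.code).get i).2) (fun j => (I.h j : ℝ)) (fun j => r j / M) 0
        hok.tu le_rfl (by norm_num) (by
          intro i
          have hmem : (homC I.code).get i ∈ homC I.code := List.get_mem _ _
          have hMR : MR I.n (homC I.code) i = lz I.n ((homC I.code).get i).1 := rfl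
          rw [hMR]
          generalize (homC I.code).get i = ρ at hmem
          unfold homC at hmem
          rw [code2_length] at hmem
          rw [add_zero]
          rcases List.mem_append.1 hmem with hr' | hr'
          · obtain ⟨k, rfl⟩ := (mem_rows I ρ).1 hr'
            simp only [lz_row, Zn.val_zero, Int.cast_zero]
            have h1 : ∑ j, (I.W k j : ℝ) * (r j / M) = (∑ j, (I.W k j : ℝ) * r j) / M := by
              rw [Finset.sum_div]
              exact Finset.sum_congr rfl fun j _ => by ring
            rw [h1]
            exact div_nonpos_of_nonpos_of_nonneg (hr k) hMp.le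
          · unfold boxR at hr'
            have hsu : ∀ (j : Fin I.n) (s : Zn),
                ∑ k, (lz I.n (unitR I.n j s) k : ℝ) * (r k / M) = Zn.val s * (r j / M) := by
              intro j s
              rw [Pool.Agent.Helper22.SQ.lz_unitR I.n j.val s j.2, Finset.sum_eq_single j]
              · rw [show (⟨j.val, j.2⟩ : Fin I.n) = j from rfl, Pi.single_eq_same]
              · intro k _ hk
                rw [show (⟨j.val, j.2⟩ : Fin I.n) = j from rfl, Pi.single_eq_of_ne hk]
                simp
              · intro h
                exact absurd (Finset.mem_univ _) h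
            rcases List.mem_append.1 hr' with hr' | hr'
            · obtain ⟨k, hk, rfl⟩ := List.mem_map.1 hr'
              have hk' := List.mem_range.1 hk
              have h1 := hsu ⟨k, hk'⟩ Zn.one
              have h2 := hi_eq I ⟨k, hk'⟩
              unfold lz at h2
              simp only at h1 h2 ⊢
              rw [h1, h2, Zn.val_one]
              have h3 := (abs_le.1 (hrM ⟨k, hk'⟩)).2
              split_ifs with hc
              · rw [hr0 _ hc]
                simp
              · push_cast
                linarith
            · obtain ⟨k, hk, rfl⟩ := List.mem_map.1 hr'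
              have hk' := List.mem_range.1 hk
              have h1 := hsu ⟨k, hk'⟩ (Zn.neg Zn.one)
              have h2 := lo_eq I ⟨k, hk'⟩
              unfold lz at h2
              simp only at h1 h2 ⊢
              rw [h1, Zn.val_neg, Zn.val_neg, h2, Zn.val_one]
              have h3 := (abs_le.1 (hrM ⟨k, hk'⟩)).1
              split_ifs with hc
              · rw [hr0 _ hc]
                simp
              · push_cast
                linarith)
      have hyS : y ∈ Sol I.n (homC I.code) := by
        intro ρ hρ
        obtain ⟨k, hk⟩ := List.mem_iff_get.1 hρ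
        have := hy k
        rw [← hk]
        exact this
      have h1 := hxm y hyS
      rw [fv_lin, fv_lin] at h1
      have h2 : (0 : ℝ) ≤ ∑ j, (I.h j : ℝ) * (y j : ℝ) := by
        exact_mod_cast hu.trans h1
      have h3 : ∑ j, (I.h j : ℝ) * (r j / M) = (∑ j, (I.h j : ℝ) * r j) / M := by
        rw [Finset.sum_div]
        exact Finset.sum_congr rfl fun j _ => by ring
      rw [h3] at hyc
      have h4 : (∑ j, (I.h j : ℝ) * r j) / M < 0 := div_neg_of_neg_of_pos hneg hMp
      simp only [mul_zero, zero_mul, add_zero] at hyc
      linarith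

end Pool.Agent.Helper77.SQ
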